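import Pool.Agent.L7h59.NC.Def

/-!
# Project NC, part UNI: directed unions (adapted from `Pool.Agent.L7h70.TW.Dir`)
-/

set_option autoImplicit false

namespace Pool.Agent.L7h53.NC

open Pool.Agent.L7h59.TW (RFun Blow Cont k0 k1)
open Pool.Agent.Y69.FJ (FinSub)
open Pool.Agent.L7h59.NC

noncomputable section

section mapHom

variable {k₁ k₂ k₃ : Type} [Ring k₁] [Ring k₂] [Ring k₃] {M N : Type} [Monoid M] [Monoid N]

/-- two ring homomorphisms which agree on the `single`s are equal -/
theorem hom_ext {R : Type} [Ring R] {f g : MonoidAlgebra k₁ M →+* R}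
    (h : ∀ m a, f (MonoidAlgebra.single m a) = g (MonoidAlgebra.single m a)) : f = g := by
  refine MonoidAlgebra.ringHom_ext (fun r => h 1 r) (fun a => h a 1)

theorem mapHom_single (j : k₁ →+* k₂) (m : M) (a : k₁) :
    MonoidAlgebra.mapRingHom M j (MonoidAlgebra.single m a) = MonoidAlgebra.single m (j a) := by
  ext m'
  classical
  rw [MonoidAlgebra.coeff_mapRingHom, MonoidAlgebra.coeff_single_apply,
    MonoidAlgebra.coeff_single_apply]
  split_ifs <;> simp

theorem mapHom_injective {j : k₁ →+* k₂} (hj : Function.Injective j) :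
    Function.Injective (MonoidAlgebra.mapRingHom M j) := by
  intro x y h
  ext m
  apply hj
  rw [← MonoidAlgebra.coeff_mapRingHom, ← MonoidAlgebra.coeff_mapRingHom, h]

theorem mapHom_range (j : k₁ →+* k₂) (y : MonoidAlgebra k₂ M)
    (hy : ∀ m, y.coeff m ∈ Set.range j) : y ∈ Set.range (MonoidAlgebra.mapRingHom M j) := by
  rw [← MonoidAlgebra.sum_coeff_single y]
  show Finsupp.sum _ _ ∈ (MonoidAlgebra.mapRingHom M j).range
  refine sum_mem fun m _ => ?_
  obtain ⟨a, ha⟩ := hy m
  exact ⟨MonoidAlgebra.single m a, by rw [mapHom_single, ha]⟩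

theorem mapHom_comp (j : k₁ →+* k₂) (j' : k₂ →+* k₃) :
    (MonoidAlgebra.mapRingHom M j').comp (MonoidAlgebra.mapRingHom M j) =
      MonoidAlgebra.mapRingHom M (j'.comp j) := by
  refine hom_ext fun m a => ?_
  rw [RingHom.comp_apply, mapHom_single, mapHom_single, mapHom_single, RingHom.comp_apply]

theorem dom_single (φ : M →* N) (m : M) (a : k₁) :
    MonoidAlgebra.mapDomainRingHom k₁ φ (MonoidAlgebra.single m a) =
      MonoidAlgebra.single (φ m) a := by
  simp

theorem dom_mapHom (j : k₁ →+* k₂) (φ : M →* N) :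
    (MonoidAlgebra.mapDomainRingHom k₂ φ).comp (MonoidAlgebra.mapRingHom M j) =
      (MonoidAlgebra.mapRingHom N j).comp (MonoidAlgebra.mapDomainRingHom k₁ φ) := by
  refine hom_ext fun m a => ?_
  rw [RingHom.comp_apply, RingHom.comp_apply, mapHom_single, dom_single, dom_single,
    mapHom_single]

end mapHom

section sym

variable (K : RFun) {k₁ k₂ k₃ : Type} [Ring k₁] [Ring k₂] [Ring k₃] {G : Type} [Group G]

/-- the map of the symbols -/
def symMap (j : k₁ →+* k₂) : FreeAbelianGroup (Sym K k₁ G) →+ FreeAbelianGroup (Sym K k₂ G) :=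
  FreeAbelianGroup.lift fun s => sym K s.1 (K.map (MonoidAlgebra.mapRingHom s.1.1 j) s.2)

theorem symMap_sym (j : k₁ →+* k₂) (H : FinSub G) (x : K.F (MonoidAlgebra k₁ H.1)) :
    symMap K j (sym K H x) = sym K H (K.map (MonoidAlgebra.mapRingHom H.1 j) x) :=
  FreeAbelianGroup.lift_apply_of _ _

theorem asm_sym (H : FinSub G) (x : K.F (MonoidAlgebra k₁ H.1)) :
    asmPre K k₁ G (sym K H x) = K.map (MonoidAlgebra.mapDomainRingHom k₁ H.1.subtype) x :=
  FreeAbelianGroup.lift_apply_of _ _

variable {K}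

theorem asm_symMap (B : Blow K) (j : k₁ →+* k₂) (z : FreeAbelianGroup (Sym K k₁ G)) :
    asmPre K k₂ G (symMap K j z) = K.map (MonoidAlgebra.mapRingHom G j) (asmPre K k₁ G z) := by
  have h : (asmPre K k₂ G).comp (symMap K j) =
      (K.map (MonoidAlgebra.mapRingHom G j)).comp (asmPre K k₁ G) := by
    refine FreeAbelianGroup.lift_ext _ _ fun s => ?_
    obtain ⟨H, x⟩ := s
    show asmPre K k₂ G (symMap K j (sym K H x)) = K.map _ (asmPre K k₁ G (sym K H x))
    rw [symMap_sym, asm_sym, asm_sym, B.map_map, B.map_map, dom_mapHom]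
  exact DFunLike.congr_fun h z

theorem symMap_rel (B : Blow K) (j : k₁ →+* k₂)
    (z : FreeAbelianGroup (Sym K k₁ G)) (hz : z ∈ AddSubgroup.closure (Rel K k₁ G)) :
    symMap K j z ∈ AddSubgroup.closure (Rel K k₂ G) := by
  have h : AddSubgroup.closure (Rel K k₁ G) ≤
      (AddSubgroup.closure (Rel K k₂ G)).comap (symMap K j) := by
    rw [AddSubgroup.closure_le]
    rintro _ (⟨H, x, y, rfl⟩ | ⟨H, L, g, φ, x, hφ, rfl⟩)
    · refine AddSubgroup.subset_closure (Or.inl ⟨H, K.map (MonoidAlgebra.mapRingHom H.1 j) x,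
        K.map (MonoidAlgebra.mapRingHom H.1 j) y, ?_⟩)
      rw [map_sub, map_add, symMap_sym, symMap_sym, symMap_sym, map_add]
    · refine AddSubgroup.subset_closure (Or.inr ⟨H, L, g, φ,
        K.map (MonoidAlgebra.mapRingHom H.1 j) x, hφ, ?_⟩)
      rw [map_sub, symMap_sym, symMap_sym, B.map_map, B.map_map, dom_mapHom]
  exact h hz

theorem symMap_comp (B : Blow K) (j : k₁ →+* k₂) (j' : k₂ →+* k₃)
    (z : FreeAbelianGroup (Sym K k₁ G)) :
    symMap K j' (symMap K j z) = symMap K (j'.comp j) z := by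
  have h : (symMap K j').comp (symMap K j) = symMap K (j'.comp j) (G := G) := by
    refine FreeAbelianGroup.lift_ext _ _ fun s => ?_
    obtain ⟨H, x⟩ := s
    show symMap K j' (symMap K j (sym K H x)) = symMap K _ (sym K H x)
    rw [symMap_sym, symMap_sym, symMap_sym, B.map_map, mapHom_comp]
  exact DFunLike.congr_fun h z

end sym

section red

variable {K : RFun} {R G : Type} [Ring R] [Group G]

/-- the subring generated by a set -/
abbrev LL (T : Set R) : Subring R := Subring.closure T

theorem incl_comp {S S' : Subring R} (h : S ≤ S') :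
    S'.subtype.comp (Subring.inclusion h) = S.subtype := rfl

theorem symMap_inc (B : Blow K) {S S' : Subring R} (h : S ≤ S')
    (y : FreeAbelianGroup (Sym K S G)) :
    symMap K S'.subtype (symMap K (Subring.inclusion h) y) = symMap K S.subtype y := by
  rw [symMap_comp B, incl_comp]

/-- the range of the embedding of the group rings -/
theorem range_emb {M : Type} [Monoid M] (S : Subring R) (y : MonoidAlgebra R M)
    (hy : ∀ m ∈ y.coeff.support, y.coeff m ∈ S) :
    y ∈ Set.range (MonoidAlgebra.mapRingHom M S.subtype) := by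
  refine mapHom_range _ _ fun m => ?_
  have h1 : y.coeff m ∈ S := by
    by_cases hm : y.coeff m = 0
    · rw [hm]
      exact zero_mem _
    · exact hy m (Finsupp.mem_support_iff.2 hm)
  exact ⟨⟨_, h1⟩, rfl⟩

/-- the finite set of the coefficients -/
theorem exists_coeffs {M : Type} (s : Finset (MonoidAlgebra R M)) :
    ∃ T : Finset R, ∀ y ∈ s, ∀ m ∈ y.coeff.support, y.coeff m ∈ T := by
  classical
  refine ⟨s.biUnion fun y => y.coeff.support.image y.coeff, fun y hy m hm => ?_⟩
  rw [Finset.mem_biUnion]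
  exact ⟨y, hy, Finset.mem_image_of_mem _ hm⟩

theorem exists_small (B : Blow K) (hC : Cont K) (z : FreeAbelianGroup (Sym K R G)) :
    ∃ T : Finset R, ∃ z' : FreeAbelianGroup (Sym K (LL (T : Set R)) G),
      symMap K (LL (T : Set R)).subtype z' = z := by
  classical
  induction z using FreeAbelianGroup.induction_on with
  | zero => exact ⟨∅, 0, map_zero _⟩
  | of s =>
    obtain ⟨H, x⟩ := s
    obtain ⟨s, hs⟩ := hC.1 (MonoidAlgebra R H.1) x
    obtain ⟨T, hT⟩ := exists_coeffs s
    obtain ⟨x', hx'⟩ := hs (MonoidAlgebra (LL (T : Set R)) H.1)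
      (MonoidAlgebra.mapRingHom H.1 (LL (T : Set R)).subtype)
      (mapHom_injective Subtype.val_injective)
      (fun b hb => range_emb _ _ fun m hm =>
        Subring.subset_closure (Finset.mem_coe.2 (hT b hb m hm)))
    refine ⟨T, sym K H x', ?_⟩
    rw [symMap_sym, hx']
    rfl
  | neg s hs =>
    obtain ⟨T, z', h⟩ := hs
    exact ⟨T, -z', by rw [map_neg, h]⟩
  | add z₁ z₂ h₁ h₂ =>
    obtain ⟨T₁, y₁, h₁⟩ := h₁
    obtain ⟨T₂, y₂, h₂⟩ := h₂
    have i₁ : LL (T₁ : Set R) ≤ LL ((T₁ ∪ T₂ : Finset R) : Set R) :=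
      Subring.closure_mono (Finset.coe_subset.2 Finset.subset_union_left)
    have i₂ : LL (T₂ : Set R) ≤ LL ((T₁ ∪ T₂ : Finset R) : Set R) :=
      Subring.closure_mono (Finset.coe_subset.2 Finset.subset_union_right)
    refine ⟨T₁ ∪ T₂, symMap K (Subring.inclusion i₁) y₁ + symMap K (Subring.inclusion i₂) y₂, ?_⟩
    rw [map_add, symMap_inc B, symMap_inc B, h₁, h₂]

/-- the relation `n • asmPre z = 0` holds over every larger subring which contains finitely many
given elements -/
theorem exists_larger (B : Blow K) (hC : Cont K) (S : Subring R) (n : ℕ)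
    (z' : FreeAbelianGroup (Sym K S G))
    (hz : n • asmPre K R G (symMap K S.subtype z') = 0) :
    ∃ T : Finset R, ∀ (S' : Subring R) (h : S ≤ S'), (∀ a ∈ T, a ∈ S') →
      n • asmPre K S' G (symMap K (Subring.inclusion h) z') = 0 := by
  classical
  have h1 : K.map (MonoidAlgebra.mapRingHom G S.subtype) (n • asmPre K S G z') = 0 := by
    rw [map_nsmul, ← asm_symMap B]
    exact hz
  obtain ⟨s, hs⟩ := hC.2 _ _ _ _ h1
  obtain ⟨T, hT⟩ := exists_coeffs s
  refine ⟨T, fun S' h hS' => ?_⟩
  have h2 := hs (MonoidAlgebra S' G) (MonoidAlgebra.mapRingHom G (Subring.inclusion h))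
    (MonoidAlgebra.mapRingHom G S'.subtype) (mapHom_injective Subtype.val_injective)
    (by rw [mapHom_comp, incl_comp])
    (fun b hb => range_emb _ _ fun m hm => hS' _ (hT b hb m hm))
  rw [map_nsmul, ← asm_symMap B] at h2
  exact h2

theorem torsion_symMap (B : Blow K) {S : Subring R} (l : ℕ)
    (y : FreeAbelianGroup (Sym K S G))
    (h : l • (QuotientAddGroup.mk y : Colim K S G) = 0) :
    l • (QuotientAddGroup.mk (symMap K S.subtype y) : Colim K R G) = 0 := by
  have h5 : l • y ∈ AddSubgroup.closure (Rel K S G) :=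
    (QuotientAddGroup.eq_zero_iff (l • y)).1 h
  have h6 := symMap_rel B S.subtype _ h5
  rw [map_nsmul] at h6
  exact (QuotientAddGroup.eq_zero_iff _).2 h6

end red

theorem s_UNI : S_UNI := by
  classical
  intro K hB hC R G _ _ hfin z n hn hz
  obtain ⟨B⟩ := hB
  obtain ⟨T, z', rfl⟩ := exists_small B hC z
  obtain ⟨T', h2⟩ := exists_larger B hC _ n z' hz
  obtain ⟨S, hS, hS2⟩ := hfin (T ∪ T')
  have h : LL (T : Set R) ≤ S := (Subring.closure_le).2 fun a ha =>
    hS a (Finset.mem_union_left _ (Finset.mem_coe.1 ha))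
  obtain ⟨l, hl, h3⟩ := hS2 _ n hn (h2 S h fun a ha => hS a (Finset.mem_union_right _ ha))
  refine ⟨l, hl, ?_⟩
  rw [← symMap_inc B h z']
  exact torsion_symMap B l _ h3

end

end Pool.Agent.L7h53.NC
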